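import Pool.Agent.MWH.StmtsC
import Pool.Agent.MWS.StmtsA

/-!
# Squad MWH, row DI4 (helper70)
-/

set_option autoImplicit false

namespace Pool.Agent.MWH.H70

open Pool.Agent.Helper14_MV Pool.Agent.Helper2_MV Pool.Agent.MVO Pool.Agent.MWL Pool.Agent.MWS

theorem di4 (hT : MWS.TlmStmt) (hS : SwhStmt) (hB : Bj4Stmt) (hE : EdcStmt) (hL : El4Stmt)
    (hG : Eg4Stmt) (hK : Ek4Stmt) : Di4Stmt := fun β h =>
  hT β h.toS8.toBaseH.toBaseR h.itr (hS β h.toS8.toBaseH)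
    (hE β (hB β h) (hL β h) (hG β h) (hK β h))

end Pool.Agent.MWH.H70
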